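import Pool.Agent.V11276.HypG

/-!
MP_18c163_nt (2-adic integrality of quotients of Gauss hypergeometric series), Q1: PROVED.

`hyp α β γ` is the formal power series `2F1(α, β; γ; 4 t)` in `ℚ⟦t⟧`, i.e. the power series whose
`n`-th coefficient is `(α)_n (β)_n / ((γ)_n n!) * 4 ^ n`, where `(x)_n` is the rising factorial.
The theorem says: for all natural numbers `a b c d e f` every coefficient of
`2F1(3/4+a, 3/4+b; 3/2+c; 4t) / 2F1(1/4+d, 1/4+e; 1/2+f; 4t)` has odd denominator.

Proof idea.  All series `2F1(A/4, B/4; G/2; 4t)` with `A, B, G` odd have `2F'/F` 2-integral (Riccati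
equation), so contiguous ones differ by units of `ℤ_(2)⟦t⟧`; this reduces to the base case `N / D`.
There a Clausen type identity
`D N = (1-4t)^(-1/2) 3F2(1/2,1/2,1/2;3/4,5/4;-4 t^2/(1-4t))` and the Wronskian show
`N / D = C(t) exp(2 M(t))` with `C` the Catalan series and `M` 2-integral.
-/

namespace Pool.Agent.Results.MP_18c163_nt.Integrality

open PowerSeries

/-- The formal power series `2F1(α, β; γ; 4 t)`. -/
noncomputable def hyp (α β γ : ℚ) : ℚ⟦X⟧ :=
  PowerSeries.mk fun n => (ascPochhammer ℚ n).eval α * (ascPochhammer ℚ n).eval β /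
    ((ascPochhammer ℚ n).eval γ * n.factorial) * 4 ^ n

theorem result : ∀ a b c d e f n : ℕ,
    Odd (coeff n (hyp (3 / 4 + a) (3 / 4 + b) (3 / 2 + c) *
      (hyp (1 / 4 + d) (1 / 4 + e) (1 / 2 + f))⁻¹)).den := by
  intro a b c d e f n
  have h := Pool.Agent.V11276.HypQuot.quot_mem a b c d e f n
  have h2 := Pool.Agent.V11276.HypQuot.mem_Z2.1 h
  rw [← Nat.not_even_iff_odd, even_iff_two_dvd]
  exact h2

end Pool.Agent.Results.MP_18c163_nt.Integrality
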